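import Pool.Agent.Helper3.EL.Defs

/-!
# Project EL (MP_56afde), module EL-O: averages over the injective families
-/

set_option autoImplicit false

namespace Pool.Agent.Helper3.EL

open Finset Pool.Agent.Lead.TB Pool.Agent.Lead.TB.Halves Pool.Agent.Helper84.TL

theorem emb_swap {n k : ℕ} (T₃ : Finset (Fin n)) (x : Fin k → Bool)
    (s s' : {s : Fin n // s ∉ T₃}) :
    (univ.filter fun e : Emb k T₃ => e x = s).card =
      (univ.filter fun e : Emb k T₃ => e x = s').card := by
  refine card_nbij' (fun e => e.trans (Equiv.swap s s').toEmbedding)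
    (fun e => e.trans (Equiv.swap s s').toEmbedding) ?_ ?_ ?_ ?_
  · intro e he
    simp only [coe_filter, mem_univ, true_and, Set.mem_ofPred_eq] at he ⊢
    simp [he]
  · intro e he
    simp only [coe_filter, mem_univ, true_and, Set.mem_ofPred_eq] at he ⊢
    simp [he]
  · intro e he
    ext y
    simp
  · intro e he
    ext y
    simp

theorem card_out {n : ℕ} (T₃ : Finset (Fin n)) :
    Fintype.card {s : Fin n // s ∉ T₃} = n - T₃.card := by
  simp

theorem emb_total {n k : ℕ} (T₃ : Finset (Fin n)) (x : Fin k → Bool)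
    (s : {s : Fin n // s ∉ T₃}) :
    Fintype.card (Emb k T₃) =
      (n - T₃.card) * (univ.filter fun e : Emb k T₃ => e x = s).card := by
  rw [← card_univ, card_eq_sum_card_fiberwise (f := fun e : Emb k T₃ => e x) (t := univ)
    (fun _ _ => mem_coe.2 (mem_univ _)), sum_congr rfl (fun s' _ => emb_swap T₃ x s' s), sum_const,
    smul_eq_mul, card_univ, card_out]

theorem emb_prob {n k : ℕ} (T₃ : Finset (Fin n)) (h : T₃.card < n) (x : Fin k → Bool)
    (s : Fin n) :
    ((univ.filter fun e : Emb k T₃ => sy e x = s).card : ℝ) ≤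
      1 / ((n : ℝ) - T₃.card) * Fintype.card (Emb k T₃) := by
  have h0 : (0 : ℝ) < (n : ℝ) - T₃.card := by
    have : (T₃.card : ℝ) < n := by exact_mod_cast h
    linarith
  by_cases hs : s ∈ T₃
  · have e : (univ.filter fun e : Emb k T₃ => sy e x = s) = ∅ := by
      refine filter_eq_empty_iff.2 fun e _ he => ?_
      exact (e x).2 (by rw [show (e x).1 = s from he]; exact hs)
    rw [e, card_empty]
    push_cast
    positivity
  · have e : (univ.filter fun e : Emb k T₃ => sy e x = s) =
        univ.filter fun e : Emb k T₃ => e x = ⟨s, hs⟩ := by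
      refine filter_congr fun e _ => ?_
      constructor
      · intro h
        exact Subtype.ext h
      · intro h
        show (e x).1 = s
        rw [h]
    rw [e, emb_total T₃ x ⟨s, hs⟩, Nat.cast_mul, Nat.cast_sub h.le, ← mul_assoc,
      one_div_mul_cancel h0.ne', one_mul]

theorem emb_card_pos {n k : ℕ} (T₃ : Finset (Fin n)) (h : T₃.card + 2 ^ k ≤ n) :
    0 < Fintype.card (Emb k T₃) := by
  rw [Fintype.card_pos_iff]
  refine Function.Embedding.nonempty_of_card_le ?_
  rw [card_out, Fintype.card_fun, Fintype.card_bool, Fintype.card_fin]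
  omega

theorem ls_inj {n : ℕ} {L : Fin n → Equiv.Perm (Fin n)} (hL : L ∈ ls n) (r : Fin n) :
    Function.Injective fun s => L s r := by
  intro s s' h
  by_contra hne
  simp only [ls, fac, mem_filter, mem_univ, true_and] at hL
  exact hL.2 s s' hne r h

theorem cnt_total {n : ℕ} {L : Fin n → Equiv.Perm (Fin n)} (hL : L ∈ ls n)
    (T₁ T₂ : Finset (Fin n)) : cnt L T₁ T₂ univ = T₁.card * T₂.card := by
  unfold cnt
  have h1 : ∀ s : Fin n, (T₁.filter fun r => L s r ∈ T₂).card =
      ∑ r ∈ T₁, if L s r ∈ T₂ then 1 else 0 := by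
    intro s
    rw [card_filter]
  rw [sum_congr rfl (fun s _ => h1 s), sum_comm]
  have h2 : ∀ r ∈ T₁, (∑ s : Fin n, if L s r ∈ T₂ then 1 else 0) = T₂.card := by
    intro r _
    rw [← card_filter]
    have hb : Function.Bijective fun s => L s r :=
      Finite.injective_iff_bijective.1 (ls_inj hL r)
    have : univ.filter (fun s => L s r ∈ T₂) = T₂.preimage (fun s => L s r)
        hb.1.injOn := by
      ext s
      simp
    rw [this, card_preimage]
    congr 1
    refine filter_true_of_mem fun c _ => ?_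
    obtain ⟨s, hs⟩ := hb.2 c
    exact ⟨s, hs⟩
  rw [sum_congr rfl h2, sum_const, smul_eq_mul]

theorem cnt_out {n : ℕ} (T₁ T₂ T₃ : Finset (Fin n)) {L : Fin n → Equiv.Perm (Fin n)}
    (hL : L ∈ emp T₁ T₂ T₃) :
    ∑ s : {s : Fin n // s ∉ T₃}, (T₁.filter fun r => L s.1 r ∈ T₂).card =
      T₁.card * T₂.card := by
  simp only [emp, mem_filter] at hL
  have h1 := cnt_total hL.1 T₁ T₂
  have h2 := hL.2
  unfold cnt at h1 h2
  rw [← h1, ← sum_filter_add_sum_filter_not univ (fun s => s ∈ T₃)]
  have e1 : univ.filter (fun s => s ∈ T₃) = T₃ := by ext; simp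
  rw [e1, h2, zero_add]
  exact (sum_subtype (univ.filter fun s => s ∉ T₃) (fun s => by simp)
    (fun s => (T₁.filter fun r => L s r ∈ T₂).card)).symm

theorem emb_cnt {n k : ℕ} (T₁ T₂ T₃ : Finset (Fin n)) (h : T₃.card + 2 ^ k ≤ n)
    {L : Fin n → Equiv.Perm (Fin n)} (hL : L ∈ emp T₁ T₂ T₃) :
    (∑ e : Emb k T₃, (cnt L T₁ T₂ (rg (sy e)) : ℝ)) / Fintype.card (Emb k T₃) =
      2 ^ k / ((n : ℝ) - T₃.card) * ((T₁.card : ℝ) * T₂.card) := by
  have hpos := emb_card_pos T₃ h
  have h2k : 0 < 2 ^ k := by positivity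
  have hlt : T₃.card < n := by omega
  have h0 : (0 : ℝ) < (n : ℝ) - T₃.card := by
    have : (T₃.card : ℝ) < n := by exact_mod_cast hlt
    linarith
  set N : ℝ := (Fintype.card (Emb k T₃) : ℝ) with hN
  have hN0 : 0 < N := by rw [hN]; exact_mod_cast hpos
  set f : Fin n → ℕ := fun s => (T₁.filter fun r => L s r ∈ T₂).card with hf
  have h1 : ∀ e : Emb k T₃, cnt L T₁ T₂ (rg (sy e)) = ∑ x : Fin k → Bool, f (e x).1 := by
    intro e
    unfold cnt rg
    rw [sum_map]
    rfl
  have h3 : ∀ x : Fin k → Bool, ∑ e : Emb k T₃, (f (e x).1 : ℝ) =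
      N / ((n : ℝ) - T₃.card) * ((T₁.card : ℝ) * T₂.card) := by
    intro x
    rw [← sum_fiberwise (s := univ) (g := fun e : Emb k T₃ => e x)]
    have h4 : ∀ s : {s : Fin n // s ∉ T₃}, ∑ e ∈ univ.filter (fun e : Emb k T₃ => e x = s),
        (f (e x).1 : ℝ) = N / ((n : ℝ) - T₃.card) * (f s.1 : ℝ) := by
      intro s
      rw [sum_congr rfl (g := fun _ => (f s.1 : ℝ)), sum_const, nsmul_eq_mul, hN,
        emb_total T₃ x s, Nat.cast_mul, Nat.cast_sub hlt.le]
      · field_simp
      · intro e he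
        rw [(mem_filter.1 he).2]
    rw [sum_congr rfl (fun s _ => h4 s), ← mul_sum]
    congr 1
    exact_mod_cast cnt_out T₁ T₂ T₃ hL
  have h5 : ∑ e : Emb k T₃, (cnt L T₁ T₂ (rg (sy e)) : ℝ) =
      2 ^ k * (N / ((n : ℝ) - T₃.card) * ((T₁.card : ℝ) * T₂.card)) := by
    calc ∑ e : Emb k T₃, (cnt L T₁ T₂ (rg (sy e)) : ℝ)
        = ∑ e : Emb k T₃, ∑ x : Fin k → Bool, (f (e x).1 : ℝ) := by
          refine sum_congr rfl fun e _ => ?_
          rw [h1 e]
          push_cast
          rfl
      _ = ∑ x : Fin k → Bool, ∑ e : Emb k T₃, (f (e x).1 : ℝ) := sum_comm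
      _ = _ := by
          rw [sum_congr rfl (fun x _ => h3 x), sum_const, card_univ, Fintype.card_fun,
            Fintype.card_bool, Fintype.card_fin, nsmul_eq_mul]
          push_cast
          rfl
  rw [h5]
  field_simp

end Pool.Agent.Helper3.EL
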